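import Pool.Agent.Lib.CPM.ZedFin

/-!
# The number of orbits of a permutation given by a table

Whether a permutation of the positive integers that is affine on residue classes, apart from finitely many numbers, has only
finitely many orbits (the question asked for the permutation `P`) is as complicated as any `∀∃` statement; in particular
it is undecidable.
-/

set_option autoImplicit false

namespace Pool.Agent.Results.MP_99994e_nt.FinitelyManyOrbits

/-- The map of the table `D = (E, L)` with `E = [e_1, ..., e_B]` and `L = [(a_1, b_1), ..., (a_m, b_m)]` on the positive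
integers: `n ≤ B` goes to `e_n`, and `n = B + m k + r` with `k ≥ 0`, `1 ≤ r ≤ m` goes to `a_r k + b_r`. -/
def tableMap (D : List ℕ × List (ℕ × ℕ)) (n : ℕ) : ℕ :=
  if n ≤ D.1.length then D.1.getD (n - 1) 0 else
    (D.2.getD ((n - D.1.length - 1) % D.2.length) (0, 0)).1 * ((n - D.1.length - 1) / D.2.length) +
      (D.2.getD ((n - D.1.length - 1) % D.2.length) (0, 0)).2

/-- For every recursively enumerable relation `R` there are computable tables `D x` of permutations of the positive integers
such that the permutation of `D x` has only finitely many orbits if and only if `R x y` holds for all `y`. -/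
theorem result (R : ℕ → ℕ → Prop) (hR : REPred fun p : ℕ × ℕ => R p.1 p.2) :
    ∃ D : ℕ → List ℕ × List (ℕ × ℕ), Computable D ∧
      ∀ x, Set.BijOn (tableMap (D x)) {n | 0 < n} {n | 0 < n} ∧
        ((∀ y, R x y) ↔ ∃ S : Finset ℕ, (∀ s ∈ S, 0 < s) ∧
          ∀ n, 0 < n → ∃ s ∈ S, ∃ a b : ℕ, (tableMap (D x))^[a] n = (tableMap (D x))^[b] s) :=
  CPM.finalN R hR

end Pool.Agent.Results.MP_99994e_nt.FinitelyManyOrbits
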